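import Mathlib

/-!
# A group whose finitary ballean is so-bounded but not bo-bounded

The group is `(ℝ * C₂) ⋊ ℤ`, where the generator of `ℤ` acts as multiplication by `2` on `ℝ` and
trivially on `C₂`. It is realised as a group of permutations of the set of normal forms of
elements of `ℝ * C₂`.
-/

open Filter Topology

namespace Pool.Agent.Results.MP_769d7c_al.SoNotBo

/-! ### The notions of the question -/

/-- `E_F[x] = {x} ∪ F x`. -/
def entourageBall {G : Type*} [Group G] (F : Finset G) (x : G) : Set G :=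
  {x} ∪ {y | ∃ g ∈ F, y = g * x}

/-- Boundedly oscillating functions. -/
def BoundedlyOscillating {G : Type*} [Group G] (f : G → ℝ) : Prop :=
  ∃ C : ℝ, 0 < C ∧ ∀ F : Finset G, ∃ B : Finset G, ∀ x : G, x ∉ B →
    Metric.diam (f '' entourageBall F x) < C

/-- Slowly oscillating functions. -/
def SlowlyOscillating {G : Type*} [Group G] (f : G → ℝ) : Prop :=
  ∀ F : Finset G, ∀ ε : ℝ, 0 < ε → ∃ B : Finset G, ∀ x : G, x ∉ B →
    Metric.diam (f '' entourageBall F x) < ε

/-- `f` is bounded outside a finite set. -/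
def BoundedOffFinite {G : Type*} (f : G → ℝ) : Prop :=
  ∃ B : Finset G, ∃ M : ℝ, ∀ x : G, x ∉ B → |f x| ≤ M

/-- The finitary ballean of `G` is bo-bounded. -/
def BoBounded (G : Type*) [Group G] : Prop :=
  ∀ f : G → ℝ, BoundedlyOscillating f → BoundedOffFinite f

/-- The finitary ballean of `G` is so-bounded. -/
def SoBounded (G : Type*) [Group G] : Prop :=
  ∀ f : G → ℝ, SlowlyOscillating f → BoundedOffFinite f

/-! ### Preliminaries -/

lemma entourageBall_finite {G : Type*} [Group G] (F : Finset G) (x : G) :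
    (entourageBall F x).Finite := by
  classical
  refine (Set.finite_singleton x).union ?_
  refine (F.image (fun g => g * x)).finite_toSet.subset ?_
  rintro y ⟨g, hg, rfl⟩
  simp only [Finset.coe_image, Set.mem_image, Finset.mem_coe]
  exact ⟨g, hg, rfl⟩

lemma SlowlyOscillating.tendsto {G : Type*} [Group G] {f : G → ℝ} (hf : SlowlyOscillating f)
    (g : G) : Tendsto (fun x => f (g * x) - f x) cofinite (𝓝 0) := by
  rw [Metric.tendsto_nhds]
  intro ε hε
  obtain ⟨B, hB⟩ := hf {g} ε hε
  rw [eventually_cofinite]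
  refine B.finite_toSet.subset ?_
  intro x hx
  by_contra hxB
  apply hx
  have h1 := hB x (by simpa using hxB)
  have h2 : dist (f (g * x)) (f x) ≤ Metric.diam (f '' entourageBall {g} x) := by
    apply Metric.dist_le_diam_of_mem ((entourageBall_finite _ _).image f).isBounded
    · exact Set.mem_image_of_mem f (Or.inr ⟨g, by simp, rfl⟩)
    · exact Set.mem_image_of_mem f (Or.inl rfl)
  rw [Real.dist_eq] at h2
  rw [Real.dist_eq, sub_zero]
  linarith

/-- A slowly oscillating function on the real line converges at infinity. -/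
lemma exists_lim (g : ℝ → ℝ)
    (hg : ∀ s : ℝ, Tendsto (fun a => g (s + a) - g a) cofinite (𝓝 0)) :
    ∃ c, Tendsto g cofinite (𝓝 c) := by
  suffices h : Cauchy (map g cofinite) from cauchy_iff_exists_le_nhds.1 h
  rw [Metric.cauchy_iff]
  refine ⟨inferInstance, fun ε hε => ?_⟩
  by_contra hcon
  push Not at hcon
  -- pairs with far values outside each finite set
  have key : ∀ B : Set ℝ, B.Finite → ∃ p : ℝ × ℝ, p.1 ∉ B ∧ p.2 ∉ B ∧ ε ≤ |g p.1 - g p.2| := by
    intro B hB
    obtain ⟨x, hx, y, hy, hxy⟩ := hcon (g '' Bᶜ) (image_mem_map (by simpa using hB))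
    obtain ⟨a, ha, rfl⟩ := hx
    obtain ⟨b, hb, rfl⟩ := hy
    exact ⟨(a, b), ha, hb, by simpa [Real.dist_eq] using hxy⟩
  obtain ⟨u, hu, huinj⟩ := exists_seq_of_forall_finset_exists
    (fun p : ℝ × ℝ => ε ≤ |g p.1 - g p.2|) (fun p q => p.1 ≠ q.1 ∧ p.2 ≠ q.2) (by
      classical
      intro s _
      obtain ⟨p, h1, h2, h3⟩ := key ((s.image Prod.fst ∪ s.image Prod.snd : Finset ℝ))
        (Finset.finite_toSet _)
      refine ⟨p, h3, fun x hx => ⟨?_, ?_⟩⟩
      · rintro h
        apply h1
        rw [← h]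
        simp only [Finset.coe_union, Finset.coe_image, Set.mem_union, Set.mem_image,
          Finset.mem_coe]
        exact Or.inl ⟨x, hx, rfl⟩
      · rintro h
        apply h2
        rw [← h]
        simp only [Finset.coe_union, Finset.coe_image, Set.mem_union, Set.mem_image,
          Finset.mem_coe]
        exact Or.inr ⟨x, hx, rfl⟩)
  have hinj1 : Function.Injective (fun n => (u n).1) := by
    intro m n hmn
    by_contra hne
    rcases lt_or_gt_of_ne hne with h | h
    · exact (huinj m n h).1 hmn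
    · exact (huinj n m h).1 hmn.symm
  have hinj2 : Function.Injective (fun n => (u n).2) := by
    intro m n hmn
    by_contra hne
    rcases lt_or_gt_of_ne hne with h | h
    · exact (huinj m n h).2 hmn
    · exact (huinj n m h).2 hmn.symm
  -- choose a generic translation
  have hcount : (⋃ n : ℕ, (fun s : ℝ => s + (u n).2) ⁻¹'
      {x : ℝ | ¬ |g (((u n).1 - (u n).2) + x) - g x| < ε / 4}).Countable := by
    refine Set.countable_iUnion fun n => Set.Finite.countable ?_
    refine Set.Finite.preimage (fun a _ b _ h => by simpa using h) ?_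
    have h1 := (Metric.tendsto_nhds.1 (hg ((u n).1 - (u n).2))) (ε / 4) (by positivity)
    rw [eventually_cofinite] at h1
    refine h1.subset ?_
    intro x hx
    simpa [Real.dist_eq] using hx
  obtain ⟨s, hs⟩ : ∃ s, s ∉ (⋃ n : ℕ, (fun s : ℝ => s + (u n).2) ⁻¹'
      {x : ℝ | ¬ |g (((u n).1 - (u n).2) + x) - g x| < ε / 4}) := by
    by_contra hall
    have hall' : ∀ s : ℝ, s ∈ (⋃ n : ℕ, (fun s : ℝ => s + (u n).2) ⁻¹'
        {x : ℝ | ¬ |g (((u n).1 - (u n).2) + x) - g x| < ε / 4}) := by
      intro s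
      by_contra h
      exact hall ⟨s, h⟩
    rw [Set.eq_univ_of_forall hall'] at hcount
    exact Cardinal.not_countable_real hcount
  simp only [Set.mem_iUnion, Set.mem_preimage, Set.mem_setOf_eq, not_exists, not_not] at hs
  have t1 : Tendsto (fun n => g (s + (u n).1) - g (u n).1) atTop (𝓝 0) := by
    have := (hg s).comp hinj1.tendsto_cofinite
    rwa [Nat.cofinite_eq_atTop] at this
  have t2 : Tendsto (fun n => g (s + (u n).2) - g (u n).2) atTop (𝓝 0) := by
    have := (hg s).comp hinj2.tendsto_cofinite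
    rwa [Nat.cofinite_eq_atTop] at this
  have e1 := (Metric.tendsto_nhds.1 t1) (ε / 4) (by positivity)
  have e2 := (Metric.tendsto_nhds.1 t2) (ε / 4) (by positivity)
  obtain ⟨n, hn1, hn2⟩ := (e1.and e2).exists
  rw [Real.dist_eq, sub_zero] at hn1 hn2
  have h3 := hs n
  have h4 : (u n).1 - (u n).2 + (s + (u n).2) = s + (u n).1 := by ring
  rw [h4] at h3
  have h5 := hu n
  rw [abs_lt] at hn1 hn2 h3
  rcases le_abs'.1 h5 with h | h
  · linarith [hn1.1, hn1.2, hn2.1, hn2.2, h3.1, h3.2]
  · linarith [hn1.1, hn1.2, hn2.1, hn2.2, h3.1, h3.2]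

section so

variable {G : Type*} [Group G] (A : ℝ → G) (hA : ∀ s r, A (s + r) = A s * A r)
  (hAinj : Function.Injective A) {f : G → ℝ}
  (hf : ∀ g : G, Tendsto (fun x => f (g * x) - f x) cofinite (𝓝 0))

include hf in
/-- If `f` has limit `c` along all cosets `A y n`, then `f (y n)` tends to `c`. -/
lemma tendsto_of_coset (y : ℕ → G) (hy : Function.Injective y) (c : ℝ)
    (hc : ∀ n, Tendsto (fun a => f (A a * y n)) cofinite (𝓝 c)) :
    Tendsto (fun n => f (y n)) atTop (𝓝 c) := by
  rw [Metric.tendsto_atTop]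
  by_contra hcon
  push Not at hcon
  obtain ⟨ε, hε, hbad⟩ := hcon
  have hex : ∃ N : ℕ, {a : ℝ | ∀ n ≥ N, |f (A a * y n) - f (y n)| < ε / 2}.Infinite := by
    by_contra hfin
    push Not at hfin
    have hcount : (⋃ N : ℕ, {a : ℝ | ∀ n ≥ N, |f (A a * y n) - f (y n)| < ε / 2}).Countable :=
      Set.countable_iUnion fun N => (hfin N).countable
    have huniv : (⋃ N : ℕ, {a : ℝ | ∀ n ≥ N, |f (A a * y n) - f (y n)| < ε / 2}) = Set.univ := by
      refine Set.eq_univ_of_forall fun a => ?_
      have t := (hf (A a)).comp hy.tendsto_cofinite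
      rw [Nat.cofinite_eq_atTop, Metric.tendsto_atTop] at t
      obtain ⟨N, hN⟩ := t (ε / 2) (by positivity)
      refine Set.mem_iUnion.2 ⟨N, fun n hn => ?_⟩
      have := hN n hn
      simpa [Real.dist_eq, Function.comp] using this
    rw [huniv] at hcount
    exact Cardinal.not_countable_real hcount
  obtain ⟨N, hN⟩ := hex
  obtain ⟨n, hn, hnbad⟩ := hbad N
  have hev := (Metric.tendsto_nhds.1 (hc n)) (ε / 2) (by positivity)
  rw [eventually_cofinite] at hev
  obtain ⟨a, ha, ha'⟩ := hN.exists_notMem_finite hev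
  simp only [Set.mem_setOf_eq, not_not] at ha ha'
  have h1 := ha n hn
  rw [Real.dist_eq] at ha' hnbad
  rw [abs_lt] at h1 ha'
  rcases le_abs'.1 hnbad with h | h
  · linarith [h1.1, h1.2, ha'.1, ha'.2]
  · linarith [h1.1, h1.2, ha'.1, ha'.2]

include hA hAinj hf in
lemma exists_coset_lim (y : G) : ∃ c, Tendsto (fun a => f (A a * y)) cofinite (𝓝 c) := by
  apply exists_lim
  intro s
  have hinj : Function.Injective (fun a => A a * y) := fun a b h => hAinj (mul_right_cancel h)
  have := (hf (A s)).comp hinj.tendsto_cofinite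
  refine this.congr fun a => ?_
  simp only [Function.comp]
  rw [hA, mul_assoc]

include hA hAinj hf in
/-- The main criterion for so-boundedness. -/
lemma bounded_of_slow (b t : G) (ht : ∀ s, t * A s = A (2 * s) * t) (htb : t * b = b * t)
    (htinj : Function.Injective (fun n : ℕ => t ^ n))
    (hgen : Subgroup.closure (Set.range A ∪ {b, t}) = ⊤) : BoundedOffFinite f := by
  choose c hc using exists_coset_lim A hA hAinj hf
  -- invariance of the limit under left multiplication by `A s`
  have cA : ∀ s y, c (A s * y) = c y := by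
    intro s y
    refine tendsto_nhds_unique (hc (A s * y)) ?_
    have hinj : Function.Injective (fun a : ℝ => a + s) := add_left_injective s
    have := (hc y).comp hinj.tendsto_cofinite
    refine this.congr fun a => ?_
    simp only [Function.comp]
    rw [hA, mul_assoc]
  have ct : ∀ y, c (t * y) = c y := by
    intro y
    refine tendsto_nhds_unique (hc (t * y)) ?_
    have hinj : Function.Injective (fun a : ℝ => a / 2) := fun a b h => by
      have : a / 2 = b / 2 := h
      linarith
    have hinj2 : Function.Injective (fun a : ℝ => A (a / 2) * y) := fun a b h =>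
      hinj (hAinj (mul_right_cancel h))
    have h1 := (hc y).comp hinj.tendsto_cofinite
    have h2 := (hf t).comp hinj2.tendsto_cofinite
    have h3 := h2.add h1
    rw [zero_add] at h3
    refine h3.congr fun a => ?_
    simp only [Function.comp]
    rw [sub_add_cancel, ← mul_assoc, ht, mul_assoc]
    congr 3
    ring
  have ctn : ∀ (n : ℕ) y, c (t ^ n * y) = c y := by
    intro n
    induction n with
    | zero => intro y; simp
    | succ n ih => intro y; rw [pow_succ', mul_assoc, ct, ih]
  have lim : ∀ y, Tendsto (fun n : ℕ => f (t ^ n * y)) atTop (𝓝 (c y)) := by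
    intro y
    refine tendsto_of_coset A hf (fun n => t ^ n * y)
      (fun m n h => htinj (mul_right_cancel h)) (c y) fun n => ?_
    have := hc (t ^ n * y)
    rwa [ctn] at this
  have cb : ∀ y, c (b * y) = c y := by
    intro y
    refine tendsto_nhds_unique (lim (b * y)) ?_
    have hinj : Function.Injective (fun n : ℕ => t ^ n * y) :=
      fun m n h => htinj (mul_right_cancel h)
    have h2 := (hf b).comp hinj.tendsto_cofinite
    rw [Nat.cofinite_eq_atTop] at h2
    have h3 := h2.add (lim y)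
    rw [zero_add] at h3
    refine h3.congr fun n => ?_
    simp only [Function.comp]
    have hcomm : t ^ n * b = b * t ^ n := (Commute.pow_left (show Commute t b from htb) n)
    rw [sub_add_cancel, ← mul_assoc, ← hcomm, mul_assoc]
  have call : ∀ y z, c (z * y) = c y := by
    intro y z
    have hz : z ∈ Subgroup.closure (Set.range A ∪ {b, t}) := by rw [hgen]; trivial
    induction hz using Subgroup.closure_induction generalizing y with
    | mem x hx =>
      rcases hx with ⟨s, rfl⟩ | hx
      · exact cA s y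
      · rcases hx with rfl | hx
        · exact cb y
        · rw [Set.mem_singleton_iff] at hx
          rw [hx]
          exact ct y
    | one => rw [one_mul]
    | mul x z _ _ hx hz => rw [mul_assoc, hx, hz]
    | inv x _ hx =>
      have := hx (x⁻¹ * y)
      rw [mul_inv_cancel_left] at this
      exact this.symm
  have hconst : ∀ y, c y = c 1 := fun y => by
    have := call 1 y
    rwa [mul_one] at this
  have hfin : {y : G | ¬ |f y - c 1| < 1}.Finite := by
    by_contra hinf
    have hinf' : {y : G | ¬ |f y - c 1| < 1}.Infinite := hinf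
    let e := hinf'.natEmbedding
    have := tendsto_of_coset A hf (fun n => (e n : G))
      (fun m n h => e.injective (Subtype.ext h)) (c 1) fun n => by
        have h0 := hc (e n : G)
        have h1 := hconst (e n : G)
        rwa [h1] at h0
    rw [Metric.tendsto_atTop] at this
    obtain ⟨N, hN⟩ := this 1 one_pos
    have h1 := hN N le_rfl
    rw [Real.dist_eq] at h1
    exact (e N).2 h1
  refine ⟨hfin.toFinset, |c 1| + 1, fun x hx => ?_⟩
  simp only [Set.Finite.mem_toFinset, Set.mem_setOf_eq, not_not] at hx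
  rw [abs_lt] at hx
  rw [abs_le]
  constructor
  · linarith [neg_abs_le (c 1), hx.1]
  · linarith [le_abs_self (c 1), hx.2]

end so

/-! ### The group -/

/-- Normal forms `a₀ b a₁ b ⋯ b aₙ` of elements of `ℝ * C₂`: pairs `(a₀, [a₁, …, aₙ])` with
`a₁, …, aₙ₋₁` nonzero. -/
abbrev Om : Type := {p : ℝ × List ℝ // ∀ x ∈ p.2.dropLast, x ≠ 0}

/-- The empty word. -/
def o : Om := ⟨(0, []), by simp⟩

/-- Left multiplication by `s : ℝ`. -/
def LA (s : ℝ) : Equiv.Perm Om where
  toFun p := ⟨(s + p.1.1, p.1.2), p.2⟩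
  invFun p := ⟨(-s + p.1.1, p.1.2), p.2⟩
  left_inv p := by ext <;> simp
  right_inv p := by ext <;> simp

open Classical in
/-- Left multiplication by `b` on raw normal forms. -/
noncomputable def bRaw (p : ℝ × List ℝ) : ℝ × List ℝ :=
  match p with
  | (a, []) => (0, [a])
  | (a, x :: xs) => if a = 0 then (x, xs) else (0, a :: x :: xs)

lemma bRaw_good (p : ℝ × List ℝ) (hp : ∀ x ∈ p.2.dropLast, x ≠ 0) :
    ∀ x ∈ (bRaw p).2.dropLast, x ≠ 0 := by
  obtain ⟨a, l⟩ := p
  cases l with
  | nil => simp [bRaw]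
  | cons y ys =>
    have hdef : bRaw (a, y :: ys) = if a = 0 then (y, ys) else (0, a :: y :: ys) := rfl
    rw [hdef]
    by_cases ha : a = 0
    · rw [if_pos ha]
      intro x hx
      apply hp
      cases ys with
      | nil => simp at hx
      | cons z zs =>
        simp only [List.dropLast_cons_cons] at hx ⊢
        exact List.mem_cons_of_mem _ hx
    · rw [if_neg ha]
      intro x hx
      simp only [List.dropLast_cons_cons, List.mem_cons] at hx
      rcases hx with rfl | hx
      · exact ha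
      · exact hp x hx

lemma bRaw_bRaw (p : ℝ × List ℝ) (hp : ∀ x ∈ p.2.dropLast, x ≠ 0) : bRaw (bRaw p) = p := by
  obtain ⟨a, l⟩ := p
  cases l with
  | nil => simp [bRaw]
  | cons y ys =>
    by_cases ha : a = 0
    · subst ha
      cases ys with
      | nil => simp [bRaw]
      | cons z zs =>
        have hy : y ≠ 0 := hp y (by simp [List.dropLast_cons_cons])
        simp [bRaw, hy]
    · simp [bRaw, ha]

/-- Left multiplication by `b`. -/
noncomputable def LB : Equiv.Perm Om where
  toFun p := ⟨bRaw p.1, bRaw_good p.1 p.2⟩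
  invFun p := ⟨bRaw p.1, bRaw_good p.1 p.2⟩
  left_inv p := Subtype.ext (bRaw_bRaw p.1 p.2)
  right_inv p := Subtype.ext (bRaw_bRaw p.1 p.2)

/-- The automorphism given by scaling by a nonzero real. -/
def scaleRaw (r : ℝ) (p : ℝ × List ℝ) : ℝ × List ℝ := (r * p.1, p.2.map (r * ·))

lemma scaleRaw_good (r : ℝ) (hr : r ≠ 0) (p : ℝ × List ℝ) (hp : ∀ x ∈ p.2.dropLast, x ≠ 0) :
    ∀ x ∈ (scaleRaw r p).2.dropLast, x ≠ 0 := by
  intro x hx
  simp only [scaleRaw, ← List.map_dropLast, List.mem_map] at hx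
  obtain ⟨y, hy, rfl⟩ := hx
  exact mul_ne_zero hr (hp y hy)

lemma scaleRaw_scaleRaw (r s : ℝ) (hrs : r * s = 1) (p : ℝ × List ℝ) :
    scaleRaw r (scaleRaw s p) = p := by
  obtain ⟨a, l⟩ := p
  simp only [scaleRaw, List.map_map, Prod.mk.injEq]
  constructor
  · rw [← mul_assoc, hrs, one_mul]
  · conv_rhs => rw [← List.map_id l]
    congr 1
    funext x
    simp only [Function.comp, id]
    rw [← mul_assoc, hrs, one_mul]

/-- The action of the generator of `ℤ`. -/
noncomputable def LT : Equiv.Perm Om where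
  toFun p := ⟨scaleRaw 2 p.1, scaleRaw_good 2 (by norm_num) p.1 p.2⟩
  invFun p := ⟨scaleRaw (1 / 2) p.1, scaleRaw_good _ (by norm_num) p.1 p.2⟩
  left_inv p := Subtype.ext (scaleRaw_scaleRaw _ _ (by norm_num) p.1)
  right_inv p := Subtype.ext (scaleRaw_scaleRaw _ _ (by norm_num) p.1)

/-- The group `(ℝ * C₂) ⋊ ℤ`. -/
abbrev Grp : Subgroup (Equiv.Perm Om) :=
  Subgroup.closure (Set.range LA ∪ {LB, LT})

lemma LA_add (s r : ℝ) : LA (s + r) = LA s * LA r := by
  ext p
  · simp [LA, add_assoc]
  · simp [LA]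

lemma LA_zero : LA 0 = 1 := by
  ext p
  · simp [LA]
  · simp [LA]

lemma LB_sq : LB * LB = 1 := by
  apply Equiv.ext
  intro p
  exact Subtype.ext (bRaw_bRaw p.1 p.2)

lemma LT_LA (s : ℝ) : LT * LA s = LA (2 * s) * LT := by
  apply Equiv.ext
  intro p
  apply Subtype.ext
  simp [LT, LA, scaleRaw, mul_add]

lemma LT_LB : LT * LB = LB * LT := by
  apply Equiv.ext
  intro p
  apply Subtype.ext
  obtain ⟨⟨a, l⟩, hp⟩ := p
  cases l with
  | nil => simp [LT, LB, scaleRaw, bRaw]
  | cons y ys =>
    by_cases ha : a = 0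
    · simp [LT, LB, scaleRaw, bRaw, ha]
    · simp [LT, LB, scaleRaw, bRaw, ha]

/-- The element `(b a₁) (b a₂) ⋯`. -/
noncomputable def M (l : List ℝ) : Equiv.Perm Om := (l.map (fun x => LB * LA x)).prod

/-- The element `a₀ b a₁ b ⋯ b aₙ`. -/
noncomputable def E (a : ℝ) (l : List ℝ) : Equiv.Perm Om := LA a * M l

lemma M_append (l l' : List ℝ) : M (l ++ l') = M l * M l' := by
  simp [M]

lemma M_cons (x : ℝ) (l : List ℝ) : M (x :: l) = LB * E x l := by
  simp [M, E, mul_assoc]

lemma M_nil : M [] = 1 := by simp [M]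

lemma E_append (a : ℝ) (l l' : List ℝ) : E a (l ++ l') = E a l * M l' := by
  simp [E, M_append, mul_assoc]

lemma E_cons (a x : ℝ) (l : List ℝ) : E a (x :: l) = LA a * (LB * E x l) := by
  rw [E, M_cons]

lemma E_nil (a : ℝ) : E a [] = LA a := by
  rw [E, M_nil, mul_one]

lemma good_tail {x : ℝ} {xs : List ℝ} (h : ∀ y ∈ (x :: xs).dropLast, y ≠ 0) :
    ∀ y ∈ xs.dropLast, y ≠ 0 := by
  intro y hy
  apply h
  cases xs with
  | nil => simp at hy
  | cons z zs =>
    simp only [List.dropLast_cons_cons]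
    exact List.mem_cons_of_mem _ hy

lemma E_o (l : List ℝ) : ∀ (a : ℝ) (hl : ∀ x ∈ l.dropLast, x ≠ 0),
    E a l o = ⟨(a, l), hl⟩ := by
  induction l with
  | nil =>
    intro a hl
    rw [E_nil]
    apply Subtype.ext
    simp [LA, o]
  | cons x xs ih =>
    intro a hl
    rw [E_cons, Equiv.Perm.mul_apply, Equiv.Perm.mul_apply, ih x (good_tail hl)]
    apply Subtype.ext
    cases xs with
    | nil => simp [LB, LA, bRaw]
    | cons z zs =>
      have hx : x ≠ 0 := hl x (by simp [List.dropLast_cons_cons])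
      simp [LB, LA, bRaw, hx]

lemma E_inj {a a' : ℝ} {l l' : List ℝ} (hl : ∀ x ∈ l.dropLast, x ≠ 0)
    (hl' : ∀ x ∈ l'.dropLast, x ≠ 0) (h : E a l = E a' l') : a = a' ∧ l = l' := by
  have h1 := E_o l a hl
  rw [h, E_o l' a' hl'] at h1
  have h2 := congrArg Subtype.val h1
  simp only [Prod.mk.injEq] at h2
  exact ⟨h2.1.symm, h2.2.symm⟩

/-- The element with normal form `p`. -/
noncomputable abbrev EO (p : Om) : Equiv.Perm Om := E p.1.1 p.1.2

lemma EO_o (p : Om) : EO p o = p := E_o p.1.2 p.1.1 p.2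

lemma LA_EO (s : ℝ) (p : Om) : LA s * EO p = EO (LA s p) := by
  simp only [EO, E]
  rw [← mul_assoc, ← LA_add]
  rfl

lemma LB_EO (p : Om) : LB * EO p = EO (LB p) := by
  obtain ⟨⟨a, l⟩, hp⟩ := p
  cases l with
  | nil =>
    simp only [EO, LB, Equiv.coe_fn_mk, bRaw]
    rw [E_cons, LA_zero, one_mul]
    rfl
  | cons y ys =>
    by_cases ha : a = 0
    · subst ha
      simp only [EO, LB, Equiv.coe_fn_mk, bRaw, if_true]
      rw [E_cons, LA_zero, one_mul]
      have := LB_sq
      change LB * (LB * E y ys) = _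
      rw [← mul_assoc, this, one_mul]
    · simp only [EO, LB, Equiv.coe_fn_mk, bRaw, if_neg ha]
      rw [E_cons 0 a, LA_zero, one_mul]
      rfl

lemma E_mul_EO (l : List ℝ) : ∀ (a : ℝ) (p : Om), E a l * EO p = EO (E a l p) := by
  induction l with
  | nil =>
    intro a p
    rw [E_nil, LA_EO]
  | cons x xs ih =>
    intro a p
    rw [E_cons, mul_assoc, mul_assoc, ih, LB_EO, LA_EO]
    rfl

/-- Scaling by `r` and conjugation. -/
lemma scale_E (t : Equiv.Perm Om) (r : ℝ) (htA : ∀ s, t * LA s = LA (r * s) * t)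
    (htB : t * LB = LB * t) (l : List ℝ) : ∀ a : ℝ,
    t * E a l = E (r * a) (l.map (r * ·)) * t := by
  induction l with
  | nil =>
    intro a
    rw [E_nil, htA, List.map_nil, E_nil]
  | cons x xs ih =>
    intro a
    rw [E_cons, List.map_cons, E_cons, ← mul_assoc, htA, mul_assoc, ← mul_assoc t, htB,
      mul_assoc LB t, ih x]
    simp only [mul_assoc]

lemma LTinv_LA (s : ℝ) : LT⁻¹ * LA s = LA (2⁻¹ * s) * LT⁻¹ := by
  rw [inv_mul_eq_iff_eq_mul, ← mul_assoc, LT_LA]
  have : (2 : ℝ) * (2⁻¹ * s) = s := by ring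
  rw [this, mul_inv_cancel_right]

lemma LTinv_LB : LT⁻¹ * LB = LB * LT⁻¹ := by
  rw [inv_mul_eq_iff_eq_mul, ← mul_assoc, LT_LB, mul_inv_cancel_right]

lemma LTz_LA (m : ℤ) (s : ℝ) : LT ^ m * LA s = LA ((2 : ℝ) ^ m * s) * LT ^ m := by
  induction m generalizing s with
  | zero => simp
  | succ n ih =>
    rw [zpow_add_one, mul_assoc, LT_LA, ← mul_assoc, ih, mul_assoc]
    congr 2
    rw [zpow_add_one₀ (by norm_num : (2 : ℝ) ≠ 0)]
    ring
  | pred n ih =>
    rw [zpow_sub_one, mul_assoc, LTinv_LA, ← mul_assoc, ih, mul_assoc]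
    congr 2
    rw [zpow_sub_one₀ (by norm_num : (2 : ℝ) ≠ 0)]
    ring

lemma LTz_LB (m : ℤ) : LT ^ m * LB = LB * LT ^ m :=
  (Commute.zpow_left (show Commute LT LB from LT_LB) m)

lemma LTz_E (m : ℤ) (a : ℝ) (l : List ℝ) :
    LT ^ m * E a l = E ((2 : ℝ) ^ m * a) (l.map ((2 : ℝ) ^ m * ·)) * LT ^ m :=
  scale_E (LT ^ m) ((2 : ℝ) ^ m) (LTz_LA m) (LTz_LB m) l a

lemma LT_o : LT o = o := by
  apply Subtype.ext
  simp [LT, scaleRaw, o]

lemma LTz_o (m : ℤ) : (LT ^ m) o = o := by
  have h : LT ∈ MulAction.stabilizer (Equiv.Perm Om) o := by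
    rw [MulAction.mem_stabilizer_iff]
    exact LT_o
  have := Subgroup.zpow_mem _ h m
  rw [MulAction.mem_stabilizer_iff] at this
  exact this

/-- Every element of the group is `E p * LT ^ m`. -/
lemma exists_form (y : Equiv.Perm Om) (hy : y ∈ Grp) : ∃ (p : Om) (m : ℤ), y = EO p * LT ^ m := by
  induction hy using Subgroup.closure_induction_left with
  | one =>
    refine ⟨o, 0, ?_⟩
    simp [EO, o, E_nil, LA_zero]
  | mul_left x hx y _ ih =>
    obtain ⟨p, m, rfl⟩ := ih
    rcases hx with ⟨s, rfl⟩ | hx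
    · exact ⟨LA s p, m, by rw [← LA_EO, mul_assoc]⟩
    · rcases hx with rfl | hx
      · exact ⟨LB p, m, by rw [← LB_EO, mul_assoc]⟩
      · rw [Set.mem_singleton_iff] at hx
        rw [hx]
        refine ⟨LT p, m + 1, ?_⟩
        rw [← mul_assoc]
        have := scale_E LT 2 LT_LA LT_LB p.1.2 p.1.1
        rw [this, mul_assoc, zpow_add, zpow_one, ← (Commute.zpow_self LT m).eq.symm]
        rfl
  | inv_mul_cancel x hx y _ ih =>
    obtain ⟨p, m, rfl⟩ := ih
    rcases hx with ⟨s, rfl⟩ | hx
    · refine ⟨LA (-s) p, m, ?_⟩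
      rw [← LA_EO, mul_assoc]
      congr 1
      rw [inv_eq_iff_mul_eq_one, ← LA_add, add_neg_cancel, LA_zero]
    · rcases hx with rfl | hx
      · refine ⟨LB p, m, ?_⟩
        rw [← LB_EO, mul_assoc]
        have hinv : LB⁻¹ = LB := inv_eq_iff_mul_eq_one.2 LB_sq
        rw [hinv]
      · rw [Set.mem_singleton_iff] at hx
        rw [hx]
        refine ⟨LT⁻¹ p, m - 1, ?_⟩
        rw [← mul_assoc]
        have := scale_E LT⁻¹ 2⁻¹ LTinv_LA LTinv_LB p.1.2 p.1.1
        rw [this, mul_assoc, zpow_sub_one, ← (Commute.zpow_self LT m).inv_right.eq.symm]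
        have h2 : (1 / 2 : ℝ) = 2⁻¹ := by norm_num
        have h3 : LT⁻¹ p = ⟨scaleRaw (1 / 2) p.1, scaleRaw_good _ (by norm_num) p.1 p.2⟩ := rfl
        rw [h3]
        simp only [EO, scaleRaw, h2]

/-! ### The unbounded, boundedly oscillating function -/

/-- The ray. -/
def om (i : ℕ) : ℝ := 2 * i + 1

lemma om_ne_zero (i : ℕ) : om i ≠ 0 := by
  unfold om
  positivity

open Classical in
/-- Length of the common initial part of a list with `om i, om (i+1), …`. -/
noncomputable def pre : ℕ → List ℝ → ℕ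
  | _, [] => 0
  | i, a :: l => if a = om i then pre (i + 1) l + 1 else 0

lemma pre_cons_pos {i : ℕ} {a : ℝ} {l : List ℝ} (h : a = om i) :
    pre i (a :: l) = pre (i + 1) l + 1 := by
  rw [pre, if_pos h]

lemma pre_cons_neg {i : ℕ} {a : ℝ} {l : List ℝ} (h : a ≠ om i) : pre i (a :: l) = 0 := by
  rw [pre, if_neg h]

lemma pre_nil (i : ℕ) : pre i [] = 0 := rfl

/-- The list `om i, …, om (i + n - 1)`. -/
def oms (i n : ℕ) : List ℝ := (List.range n).map (fun j => om (i + j))

lemma oms_succ (i n : ℕ) : oms i (n + 1) = om i :: oms (i + 1) n := by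
  unfold oms
  rw [List.range_succ_eq_map, List.map_cons, List.map_map]
  simp only [add_zero, List.cons.injEq, true_and]
  congr 1
  funext j
  simp only [Function.comp, Nat.succ_eq_add_one]
  congr 1
  ring

lemma oms_zero (i : ℕ) : oms i 0 = [] := rfl

/-- Solving `LA c = M l * E v0 pr` in normal form. -/
lemma solve (l : List ℝ) (c : ℝ) (hc : c ≠ 0) : (∀ x ∈ l.dropLast, x ≠ 0) →
    ∃ (v0 : ℝ) (pr : List ℝ), LA c = M l * E v0 pr ∧ (∀ x ∈ pr, x ≠ 0) ∧
      ((∀ x ∈ l, x ≠ 0) → v0 ≠ 0) := by
  induction l using List.reverseRecOn with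
  | nil =>
    intro _
    exact ⟨c, [], by rw [M_nil, one_mul, E_nil], by simp, fun _ => hc⟩
  | append_singleton xs x ih =>
    intro hl
    rw [List.dropLast_concat] at hl
    obtain ⟨v0, pr, h1, h2, h3⟩ := ih (fun y hy => hl y (List.mem_of_mem_dropLast hy))
    refine ⟨-x, v0 :: pr, ?_, ?_, ?_⟩
    · rw [M_append, M_cons, M_nil' x, E_cons]
      rw [h1, mul_assoc, mul_assoc, ← mul_assoc (LA x), ← LA_add, add_neg_cancel, LA_zero,
        one_mul, ← mul_assoc LB, LB_sq, one_mul]
    · intro y hy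
      rw [List.mem_cons] at hy
      rcases hy with rfl | hy
      · exact h3 hl
      · exact h2 y hy
    · intro hall
      exact neg_ne_zero.2 (hall x (by simp))
where
  M_nil' (x : ℝ) : E x [] = LA x := E_nil x

/-- The key combinatorial lemma. -/
lemma key (l : List ℝ) : ∀ (i : ℕ) (a a' : ℝ) (l' : List ℝ),
    (∀ x ∈ l.dropLast, x ≠ 0) → (∀ x ∈ l'.dropLast, x ≠ 0) →
    pre i (a :: l) + 2 ≤ pre i (a' :: l') →
    ∃ (v0 : ℝ) (pr suf : List ℝ),
      (∀ x ∈ (pr ++ om (i + pre i (a :: l) + 1) :: suf).dropLast, x ≠ 0) ∧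
      E a' l' = E a l * E v0 (pr ++ om (i + pre i (a :: l) + 1) :: suf) ∧
      E (om i) (oms (i + 1) (pre i (a :: l))) = E a l * E v0 pr := by
  induction l with
  | nil =>
    intro i a a' l' _ hl' h
    by_cases ha : a = om i
    · have hp : pre i [a] = 1 := by rw [pre_cons_pos ha, pre_nil]
      rw [hp] at h ⊢
      have ha' : a' = om i := by
        by_contra hne
        rw [pre_cons_neg hne] at h
        omega
      rw [pre_cons_pos ha'] at h
      cases l' with
      | nil => rw [pre_nil] at h; omega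
      | cons x xs =>
        have hx : x = om (i + 1) := by
          by_contra hne
          rw [pre_cons_neg hne] at h
          omega
        rw [pre_cons_pos hx] at h
        cases xs with
        | nil => rw [pre_nil] at h; omega
        | cons z zs =>
          have hz : z = om (i + 1 + 1) := by
            by_contra hne
            rw [pre_cons_neg hne] at h
            omega
          subst ha ha' hx hz
          refine ⟨0, [om (i + 1)], zs, ?_, ?_, ?_⟩
          · simpa using hl'
          · rw [E_nil]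
            change LA (om i) * M _ = LA (om i) * (LA 0 * M _)
            rw [LA_zero, one_mul]
            rfl
          · rw [E_nil, oms_succ, oms_zero]
            change LA (om i) * M _ = LA (om i) * (LA 0 * M _)
            rw [LA_zero, one_mul]
    · have hp : pre i [a] = 0 := pre_cons_neg ha
      rw [hp] at h ⊢
      have ha' : a' = om i := by
        by_contra hne
        rw [pre_cons_neg hne] at h
        omega
      rw [pre_cons_pos ha'] at h
      cases l' with
      | nil => rw [pre_nil] at h; omega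
      | cons x xs =>
        have hx : x = om (i + 1) := by
          by_contra hne
          rw [pre_cons_neg hne] at h
          omega
        subst ha' hx
        refine ⟨om i - a, [], xs, ?_, ?_, ?_⟩
        · simpa using hl'
        · rw [E_nil, E, E, ← mul_assoc, ← LA_add, add_sub_cancel]
          rfl
        · rw [E_nil, oms_zero, E_nil, E_nil, ← LA_add, add_sub_cancel]
  | cons y ys ih =>
    intro i a a' l' hl hl' h
    by_cases ha : a = om i
    · have hp : pre i (a :: y :: ys) = pre (i + 1) (y :: ys) + 1 := pre_cons_pos ha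
      rw [hp] at h ⊢
      have ha' : a' = om i := by
        by_contra hne
        rw [pre_cons_neg hne] at h
        omega
      rw [pre_cons_pos ha'] at h
      cases l' with
      | nil => rw [pre_nil] at h; omega
      | cons x xs =>
        obtain ⟨v0, pr, suf, h1, h2, h3⟩ := ih (i + 1) y x xs (good_tail hl) (good_tail hl')
          (by omega)
        have e : i + 1 + pre (i + 1) (y :: ys) + 1 = i + (pre (i + 1) (y :: ys) + 1) + 1 := by
          ring
        rw [e] at h1 h2
        subst ha ha'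
        refine ⟨v0, pr, suf, h1, ?_, ?_⟩
        · rw [E_cons, h2, E_cons]
          simp only [mul_assoc]
        · rw [oms_succ, E_cons, h3, E_cons]
          simp only [mul_assoc]
    · have hp : pre i (a :: y :: ys) = 0 := pre_cons_neg ha
      rw [hp] at h ⊢
      have ha' : a' = om i := by
        by_contra hne
        rw [pre_cons_neg hne] at h
        omega
      rw [pre_cons_pos ha'] at h
      cases l' with
      | nil => rw [pre_nil] at h; omega
      | cons x xs =>
        have hx : x = om (i + 1) := by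
          by_contra hne
          rw [pre_cons_neg hne] at h
          omega
        subst ha' hx
        obtain ⟨v0, pr, h1, h2, _⟩ := solve (y :: ys) (om i - a) (sub_ne_zero.2 (Ne.symm ha)) hl
        have h3 : LA (om i) = E a (y :: ys) * E v0 pr := by
          rw [E, mul_assoc, ← h1, ← LA_add, add_sub_cancel]
        refine ⟨v0, pr, xs, ?_, ?_, ?_⟩
        · intro z hz
          rw [List.dropLast_append_of_ne_nil (by simp), List.mem_append] at hz
          rcases hz with hz | hz
          · exact h2 z hz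
          · simp only [add_zero] at hz
            exact hl' z hz
        · rw [E_append, ← mul_assoc, ← h3]
          rfl
        · rw [oms_zero, E_nil, h3]

/-- The function on normal forms. -/
noncomputable def FF (p : Om) : ℕ := pre 0 (p.1.1 :: p.1.2)

/-- The possible parameters of exceptional elements. -/
def params (w : Om) : Set (ℕ × ℕ × ℤ) :=
  {q | ∃ h : q.1 < w.1.2.length, (2 : ℝ) ^ q.2.2 * w.1.2[q.1] = om (q.2.1 + 1)}

lemma zpow_two_odd {m : ℤ} {j k : ℕ} (h : (2 : ℝ) ^ m * om j = om k) : m = 0 ∧ j = k := by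
  have key : ∀ (n : ℕ) (j k : ℕ), (2 : ℝ) ^ n * om j = om k → n = 0 := by
    intro n j k h
    by_contra hn
    obtain ⟨n', rfl⟩ := Nat.exists_eq_succ_of_ne_zero hn
    unfold om at h
    have h' : (2 : ℕ) ^ (n' + 1) * (2 * j + 1) = 2 * k + 1 := by
      have : (2 : ℝ) ^ (n' + 1) * (2 * j + 1) = 2 * k + 1 := h
      exact_mod_cast this
    rw [pow_succ] at h'
    have : 2 * (2 ^ n' * (2 * j + 1)) = 2 * k + 1 := by rw [← h']; ring
    omega
  have hm : m = 0 := by
    obtain ⟨n, rfl | rfl⟩ := m.eq_nat_or_neg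
    · rw [zpow_natCast] at h
      have := key n j k h
      simp [this]
    · rw [zpow_neg, zpow_natCast, inv_mul_eq_iff_eq_mul₀ (by positivity)] at h
      have := key n k j h.symm
      simp [this]
  refine ⟨hm, ?_⟩
  rw [hm, zpow_zero, one_mul] at h
  unfold om at h
  have : (j : ℝ) = k := by linarith
  exact_mod_cast this

lemma params_finite (w : Om) : (params w).Finite := by
  have hinj : Set.InjOn (fun q : ℕ × ℕ × ℤ => q.1) (params w) := by
    rintro ⟨j, k, m⟩ ⟨h1, h2⟩ ⟨j', k', m'⟩ ⟨h1', h2'⟩ (hj : j = j')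
    subst hj
    simp only at h1 h2 h1' h2'
    have h3 : (2 : ℝ) ^ (m - m') * om (k' + 1) = om (k + 1) := by
      rw [← h2', ← h2, ← mul_assoc, ← zpow_add₀ (by norm_num : (2 : ℝ) ≠ 0), sub_add_cancel]
    obtain ⟨h4, h5⟩ := zpow_two_odd h3
    have h6 : m = m' := by omega
    have h7 : k = k' := by omega
    rw [h6, h7]
  refine Set.Finite.of_finite_image ?_ hinj
  refine (Set.finite_lt_nat w.1.2.length).subset ?_
  rintro _ ⟨q, ⟨h, _⟩, rfl⟩
  exact h

lemma exceptional_finite (w : Om) :
    {y : Grp | FF ((y : Equiv.Perm Om) o) + 2 ≤ FF ((y : Equiv.Perm Om) w)}.Finite := by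
  have hinj : Function.Injective (fun y : Grp => (y : Equiv.Perm Om)) := Subtype.val_injective
  refine Set.Finite.of_finite_image ?_ hinj.injOn
  refine ((params_finite w).image (fun q : ℕ × ℕ × ℤ =>
    E (om 0) (oms 1 q.2.1) * LT ^ q.2.2 * (E w.1.1 (w.1.2.take q.1))⁻¹)).subset ?_
  rintro _ ⟨y, hy, rfl⟩
  obtain ⟨p, m, hpm⟩ := exists_form y.1 y.2
  simp only [Set.mem_setOf_eq] at hy
  rw [hpm, Equiv.Perm.mul_apply, Equiv.Perm.mul_apply, LTz_o, EO_o] at hy
  set u : Om := (LT ^ m) w with hu
  -- the normal form of `u`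
  have hEu : EO u = E ((2 : ℝ) ^ m * w.1.1) (w.1.2.map ((2 : ℝ) ^ m * ·)) := by
    have hgood : ∀ x ∈ (w.1.2.map ((2 : ℝ) ^ m * ·)).dropLast, x ≠ 0 := by
      intro x hx
      rw [← List.map_dropLast, List.mem_map] at hx
      obtain ⟨z, hz, rfl⟩ := hx
      exact mul_ne_zero (by positivity) (w.2 z hz)
    have h1 : u = ⟨((2 : ℝ) ^ m * w.1.1, w.1.2.map ((2 : ℝ) ^ m * ·)), hgood⟩ := by
      rw [← E_o _ _ hgood, hu]
      conv_lhs => rw [← EO_o w]
      rw [← Equiv.Perm.mul_apply, LTz_E, Equiv.Perm.mul_apply, LTz_o]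
    rw [h1]
  set q : Om := (EO p) u with hq
  have hEq : EO q = EO p * EO u := (E_mul_EO _ _ u).symm
  obtain ⟨v0, pr, suf, h1, h2, h3⟩ := key p.1.2 0 p.1.1 q.1.1 q.1.2 p.2 q.2 hy
  have h4 : EO u = E v0 (pr ++ om (0 + pre 0 (p.1.1 :: p.1.2) + 1) :: suf) := by
    have : EO p * EO u = EO p * E v0 (pr ++ om (0 + pre 0 (p.1.1 :: p.1.2) + 1) :: suf) := by
      rw [← hEq]
      exact h2
    exact mul_left_cancel this
  rw [hEu] at h4
  have hgood : ∀ x ∈ (w.1.2.map ((2 : ℝ) ^ m * ·)).dropLast, x ≠ 0 := by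
    intro x hx
    rw [← List.map_dropLast, List.mem_map] at hx
    obtain ⟨z, hz, rfl⟩ := hx
    exact mul_ne_zero (by positivity) (w.2 z hz)
  obtain ⟨h5, h6⟩ := E_inj hgood h1 h4
  set k := pre 0 (p.1.1 :: p.1.2) with hk
  have hlen : pr.length < w.1.2.length := by
    have := congrArg List.length h6
    simp only [List.length_map, List.length_append, List.length_cons] at this
    omega
  refine ⟨(pr.length, k, m), ⟨hlen, ?_⟩, ?_⟩
  · simp only
    have h7 : (w.1.2.map ((2 : ℝ) ^ m * ·))[pr.length]? = some (om (k + 1)) := by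
      rw [h6]
      simp
    rw [List.getElem?_map, List.getElem?_eq_getElem hlen] at h7
    simpa using h7
  · simp only
    have h8 : (w.1.2.take pr.length).map ((2 : ℝ) ^ m * ·) = pr := by
      rw [List.map_take, h6]
      simp
    have h9 : LT ^ m * E w.1.1 (w.1.2.take pr.length) = E v0 pr * LT ^ m := by
      rw [LTz_E, h8, h5]
    have h10 : E (om 0) (oms 1 k) = EO p * E v0 pr := h3
    rw [h10, hpm, mul_inv_eq_iff_eq_mul, mul_assoc, mul_assoc, h9]

lemma mem_LA (s : ℝ) : LA s ∈ Grp := Subgroup.subset_closure (Or.inl ⟨s, rfl⟩)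

lemma mem_LB : LB ∈ Grp := Subgroup.subset_closure (Or.inr (Or.inl rfl))

lemma mem_LT : LT ∈ Grp := Subgroup.subset_closure (Or.inr (Or.inr rfl))

lemma mem_E (l : List ℝ) : ∀ a, E a l ∈ Grp := by
  induction l with
  | nil => intro a; rw [E_nil]; exact mem_LA a
  | cons x xs ih =>
    intro a
    rw [E_cons]
    exact Grp.mul_mem (mem_LA a) (Grp.mul_mem mem_LB (ih x))

/-- The function on the group. -/
noncomputable def ff (x : Grp) : ℝ := (FF ((x⁻¹ : Grp).1 o) : ℝ)

lemma ff_exceptional (g : Grp) : {x : Grp | ¬ |ff (g * x) - ff x| ≤ 1}.Finite := by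
  -- exceptional set for increase
  have h1 : {x : Grp | ff x + 2 ≤ ff (g * x)}.Finite := by
    have h := exceptional_finite ((g⁻¹ : Grp).1 o)
    refine (h.preimage (f := fun x : Grp => x⁻¹) (inv_injective.injOn)).subset ?_
    intro x hx
    simp only [Set.mem_setOf_eq, Set.mem_preimage, ff] at hx ⊢
    rw [mul_inv_rev] at hx
    have h2 : FF ((x⁻¹ : Grp).1 o) + 2 ≤ FF ((x⁻¹ * g⁻¹ : Grp).1 o) := by exact_mod_cast hx
    exact h2
  have h2 : {x : Grp | ff (g * x) + 2 ≤ ff x}.Finite := by
    have h := exceptional_finite (g.1 o)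
    refine (h.preimage (f := fun x : Grp => (g * x)⁻¹) (fun a _ b _ hab => ?_)).subset ?_
    · exact mul_left_cancel (inv_injective hab)
    · intro x hx
      simp only [Set.mem_setOf_eq, Set.mem_preimage, ff] at hx ⊢
      have h2 : FF (((g * x)⁻¹ : Grp).1 o) + 2 ≤ FF ((x⁻¹ : Grp).1 o) := by exact_mod_cast hx
      refine h2.trans (le_of_eq ?_)
      have h3 : (x⁻¹ : Grp) = (g * x)⁻¹ * g := by group
      conv_lhs => rw [h3]
      rfl
  refine (h1.union h2).subset ?_
  intro x hx
  simp only [Set.mem_setOf_eq, not_le] at hx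
  have hx' : (1 : ℝ) < |(FF (((g * x)⁻¹ : Grp).1 o) : ℝ) - (FF ((x⁻¹ : Grp).1 o) : ℝ)| := hx
  rw [lt_abs] at hx'
  rcases hx' with h | h
  · left
    have : (FF ((x⁻¹ : Grp).1 o)) + 1 < (FF (((g * x)⁻¹ : Grp).1 o)) := by
      have : (FF ((x⁻¹ : Grp).1 o) : ℝ) + 1 < (FF (((g * x)⁻¹ : Grp).1 o) : ℝ) := by linarith
      exact_mod_cast this
    simp only [Set.mem_setOf_eq, ff]
    exact_mod_cast this
  · right
    have : (FF (((g * x)⁻¹ : Grp).1 o)) + 1 < (FF ((x⁻¹ : Grp).1 o)) := by
      have : (FF (((g * x)⁻¹ : Grp).1 o) : ℝ) + 1 < (FF ((x⁻¹ : Grp).1 o) : ℝ) := by linarith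
      exact_mod_cast this
    simp only [Set.mem_setOf_eq, ff]
    exact_mod_cast this

lemma ff_boundedly : BoundedlyOscillating ff := by
  classical
  refine ⟨3, by norm_num, fun F => ?_⟩
  have hfin : (⋃ g ∈ F, {x : Grp | ¬ |ff (g * x) - ff x| ≤ 1}).Finite :=
    F.finite_toSet.biUnion fun g _ => ff_exceptional g
  refine ⟨hfin.toFinset, fun x hx => ?_⟩
  simp only [Set.Finite.mem_toFinset, Set.mem_iUnion, Set.mem_setOf_eq, not_exists, not_not]
    at hx
  have h1 : ∀ y ∈ entourageBall F x, |ff y - ff x| ≤ 1 := by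
    rintro y (hy | ⟨g, hg, rfl⟩)
    · rw [Set.mem_singleton_iff] at hy
      rw [hy]
      simp
    · exact hx g hg
  have h2 : Metric.diam (ff '' entourageBall F x) ≤ 2 := by
    apply Metric.diam_le_of_forall_dist_le (by norm_num)
    rintro _ ⟨y, hy, rfl⟩ _ ⟨z, hz, rfl⟩
    have hy' := abs_le.1 (h1 y hy)
    have hz' := abs_le.1 (h1 z hz)
    rw [Real.dist_eq, abs_le]
    constructor <;> linarith [hy'.1, hy'.2, hz'.1, hz'.2]
  linarith

lemma oms_good (i n : ℕ) : ∀ x ∈ (oms i n), x ≠ 0 := by
  intro x hx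
  simp only [oms, List.mem_map] at hx
  obtain ⟨j, _, rfl⟩ := hx
  exact om_ne_zero _

lemma pre_oms (n : ℕ) : ∀ i, pre i (oms i n) = n := by
  induction n with
  | zero => intro i; rw [oms_zero, pre_nil]
  | succ n ih => intro i; rw [oms_succ, pre_cons_pos rfl, ih]

lemma ff_unbounded (M : ℝ) (B : Finset Grp) : ∃ x : Grp, x ∉ B ∧ M < |ff x| := by
  -- the elements `x n` with `ff (x n) = n + 1`
  let x : ℕ → Grp := fun n => (⟨E (om 0) (oms 1 n), mem_E _ _⟩ : Grp)⁻¹
  have hx : ∀ n, ff (x n) = n + 1 := by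
    intro n
    have h1 : (((x n)⁻¹ : Grp)).1 o = ⟨(om 0, oms 1 n),
        fun y hy => oms_good 1 n y (List.mem_of_mem_dropLast hy)⟩ := by
      simp only [x, inv_inv]
      exact E_o _ _ _
    simp only [ff]
    rw [h1]
    simp only [FF]
    rw [← oms_succ, pre_oms]
    push_cast
    ring
  have hinj : Function.Injective x := by
    intro m n h
    have h1 := hx m
    rw [h, hx n] at h1
    have : (n : ℝ) = m := by linarith
    exact_mod_cast this.symm
  obtain ⟨N, hN⟩ := exists_nat_gt M
  have hinf : (x '' Set.Ici N).Infinite := (Set.Ici_infinite N).image hinj.injOn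
  obtain ⟨y, hy, hyB⟩ := hinf.exists_notMem_finset B
  obtain ⟨n, hn, rfl⟩ := hy
  refine ⟨x n, hyB, ?_⟩
  rw [hx n]
  have : (N : ℝ) ≤ n := by exact_mod_cast hn
  have h2 := le_abs_self ((n : ℝ) + 1)
  linarith

/-- There is a group whose finitary ballean is so-bounded but not bo-bounded. -/
theorem result : ∃ (G : Type) (_ : Group G), SoBounded G ∧ ¬ BoBounded G := by
  refine ⟨Grp, inferInstance, ?_, ?_⟩
  · intro f hf
    refine bounded_of_slow (fun s => (⟨LA s, mem_LA s⟩ : Grp))
      (fun s r => Subtype.ext (LA_add s r)) ?_ hf.tendsto ⟨LB, mem_LB⟩ ⟨LT, mem_LT⟩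
      (fun s => Subtype.ext (LT_LA s)) (Subtype.ext LT_LB) ?_ ?_
    · intro s r h
      have h1 : LA s o = LA r o := by
        have := congrArg Subtype.val h
        exact congrArg (fun t : Equiv.Perm Om => t o) this
      have h2 := congrArg (fun p : Om => p.1.1) h1
      simpa [LA, o] using h2
    · intro m n h
      have h1 : LT ^ m = LT ^ n := congrArg Subtype.val h
      have h2 : (LT ^ (m : ℤ)) * LA 1 * LT ^ (-(m : ℤ)) = (LT ^ (n : ℤ)) * LA 1 * LT ^ (-(n : ℤ)) := by
        rw [zpow_neg, zpow_neg, zpow_natCast, zpow_natCast, h1]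
      rw [LTz_LA, LTz_LA, mul_assoc, mul_assoc, ← zpow_add, ← zpow_add, add_neg_cancel,
        add_neg_cancel, zpow_zero, mul_one, mul_one] at h2
      have h3 := congrArg (fun t : Equiv.Perm Om => (t o).1.1) h2
      simp only [LA, o, Equiv.coe_fn_mk, mul_one, add_zero, zpow_natCast] at h3
      exact Nat.pow_right_injective le_rfl (by exact_mod_cast h3)
    · rw [eq_top_iff]
      rintro ⟨y, hy⟩ -
      induction hy using Subgroup.closure_induction with
      | mem x hx =>
        apply Subgroup.subset_closure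
        rcases hx with ⟨s, rfl⟩ | hx
        · exact Or.inl ⟨s, rfl⟩
        · rcases hx with rfl | hx
          · exact Or.inr (Or.inl rfl)
          · rw [Set.mem_singleton_iff] at hx
            subst hx
            exact Or.inr (Or.inr rfl)
      | one => exact Subgroup.one_mem _
      | mul x z hx hz ihx ihz =>
        have := Subgroup.mul_mem _ ihx ihz
        exact this
      | inv x hx ihx =>
        have := Subgroup.inv_mem _ ihx
        exact this
  · intro hbo
    obtain ⟨B, M, hM⟩ := hbo ff ff_boundedly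
    obtain ⟨x, hxB, hx⟩ := ff_unbounded M B
    exact absurd (hM x hxB) (not_le.2 hx)

end Pool.Agent.Results.MP_769d7c_al.SoNotBo
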